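import Pool.Agent.R721.HC.Two
import Pool.Agent.H463R3.PSLn

/-!
The equivalence between higher congruences of character values and the relation `∼_m` fails for
finite simple groups of Lie type: for every odd prime `p` and every `m ≥ 2` it fails for all the
groups `PSL_n(F)` with `n = p ^ (m - 1)` and `p` exactly dividing `|F| - 1`, and for `p = 2`, `m = 2`
it fails for all the groups `PSL_2(F)` with `|F| ≡ ±3 (mod 8)`, `|F| > 3`.

Idea. For odd `p` the Weyl-Heisenberg matrices `f(x) ↦ psi(b x) f(x + a)` (indexed by the field with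
`n` elements, `psi` an additive character with values in `F`) give an elementary abelian subgroup
`P` of order `n ^ 2` of `PSL_n(F)`, all of whose nonidentity elements are conjugate (explicit
quadratic Fourier kernels). Hence `n ^ 2` divides `chi(1) + (n ^ 2 - 1) chi(g)` for each character.
On the other hand `X ^ n - c` is irreducible over `F` for each `c ≠ 1` with `c ^ p = 1`, so
`p`-elements of `SL_n(F)` have order dividing `n = p ^ (m - 1)`, and `∼_m` is conjugacy.
-/

set_option autoImplicit false

namespace Pool.Agent.Results.MP_cfb286_al.ProjectiveGroups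

open Pool.Agent.R721.HC

/-- For every odd prime `p`, every `m ≥ 2` and every finite field `F` such that `p` exactly divides
`|F| - 1` (so `p` is not the characteristic of `F`), the group `PSL_n(F)`, `n = p ^ (m - 1)`, is
simple and has elements `g`, `g'` with `g ≁_m g'` and `chi(g) ≡ chi(g') (mod p ^ m)` for every
character `chi`; for each prime `p` there are infinitely many prime fields of this kind. The same
holds for `p = 2`, `m = 2` and `PSL_2(F)` with `|F| > 3`, `|F| ≡ 3` or `5 (mod 8)`. -/
theorem result :
    (∀ p m : ℕ, p.Prime → p ≠ 2 → 2 ≤ m → ∀ (F : Type) [Field F] [Fintype F],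
      p ∣ Fintype.card F - 1 → ¬ p ^ 2 ∣ Fintype.card F - 1 →
        (p : F) ≠ 0 ∧
        IsSimpleGroup (Matrix.ProjectiveSpecialLinearGroup (Fin (p ^ (m - 1))) F) ∧
        Fails (Matrix.ProjectiveSpecialLinearGroup (Fin (p ^ (m - 1))) F) p m) ∧
    (∀ p : ℕ, p.Prime → {l : ℕ | l.Prime ∧ p ∣ l - 1 ∧ ¬ p ^ 2 ∣ l - 1}.Infinite) ∧
    (∀ (F : Type) [Field F] [Fintype F], 3 < Fintype.card F →
      (Fintype.card F % 8 = 3 ∨ Fintype.card F % 8 = 5) →
        (2 : F) ≠ 0 ∧
        IsSimpleGroup (Matrix.ProjectiveSpecialLinearGroup (Fin 2) F) ∧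
        Fails (Matrix.ProjectiveSpecialLinearGroup (Fin 2) F) 2 2) := by
  refine ⟨?_, infinite_primes, ?_⟩
  · intro p m hp hp2 hm F _ _ hq1 hq2
    refine ⟨cast_ne hp hq1, ?_, odd_part p m hp hp2 hm F hq1 hq2⟩
    apply Pool.Agent.H463R3.PSLn.isSimpleGroup_PSL
    rw [Fintype.card_fin]
    have h3 : 3 ≤ p := by
      have := hp.two_le
      omega
    calc 3 ≤ p ^ 1 := by rw [pow_one]; exact h3
      _ ≤ p ^ (m - 1) := Nat.pow_le_pow_right (by omega) (by omega)
  · intro F _ _ hF hq
    refine ⟨?_, Matrix.ProjectiveSpecialLinearGroup.rank_two_simple ?_, two_part F hq⟩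
    · exact_mod_cast cast_ne (F := F) Nat.prime_two (by omega)
    · rw [Nat.card_eq_fintype_card]
      omega

end Pool.Agent.Results.MP_cfb286_al.ProjectiveGroups
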